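import Pool.Agent.Work.MP_98b61d_nt.Asym2

/-!
Asymptotic formula for the number of `n < x` with `f n = F n`.
-/

namespace Pool.Agent.Results.MP_98b61d_nt.AsymptoticFormula

open Pool.Agent.Work.MP_98b61d_nt

/-- `N x ~ (1 / log x) ∫_1^x W t dt` as `x → ∞`. -/
theorem result :
    Asymptotics.IsEquivalent Filter.atTop (fun x : ℝ => (N x : ℝ))
      (fun x : ℝ => (∫ t in (1 : ℝ)..x, W t) / Real.log x) :=
  N_isEquivalent

end Pool.Agent.Results.MP_98b61d_nt.AsymptoticFormula
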