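import Pool.Agent.Work.MP_98b61d_nt.Osc3

/-!
The number of `n < x` with `f n = F n` is infinitely often of larger order than `x / log x`.
-/

namespace Pool.Agent.Results.MP_98b61d_nt.Oscillation

open Pool.Agent.Work.MP_98b61d_nt

/-- `N x ≥ c x log log log x / log x` for arbitrarily large `x`. -/
theorem result : ∃ c : ℝ, 0 < c ∧ ∃ᶠ x : ℝ in Filter.atTop,
    c * (x * Real.log (Real.log (Real.log x)) / Real.log x) ≤ (N x : ℝ) :=
  N_omega

end Pool.Agent.Results.MP_98b61d_nt.Oscillation
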