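import Pool.Agent.Work.MP_98b61d_nt.Upper2

/-!
Upper bound for the number of `n < x` with `f n = F n`.
-/

namespace Pool.Agent.Results.MP_98b61d_nt.UpperBound

open Pool.Agent.Work.MP_98b61d_nt

/-- `x / (2 log x) ≤ N x ≤ C x (log log x)^2 / log x` for all large `x`. -/
theorem result : ∃ C : ℝ, 0 < C ∧ ∀ᶠ x : ℝ in Filter.atTop,
    x / (2 * Real.log x) ≤ (N x : ℝ) ∧
    (N x : ℝ) ≤ C * (x * (Real.log (Real.log x)) ^ 2 / Real.log x) := by
  obtain ⟨C, hC, h⟩ := N_upper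
  refine ⟨C, hC, ?_⟩
  filter_upwards [h, N_ge] with x h1 h2
  exact ⟨h2, h1⟩

end Pool.Agent.Results.MP_98b61d_nt.UpperBound
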